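import Pool.Agent.Helper22_LLG.Stmt

/-!
LLG: module COUNT
-/

set_option autoImplicit false

namespace Pool.Agent.LLG.H93

open SimpleGraph Pool.Agent.LAG Pool.Agent.LLG

theorem count (hclu : CluStmt) : CountStmt := by
  intro W _ _ Γ k s m hk hm hreg hsp v 𝒰 h𝒰
  have h1 : ∀ U ∈ 𝒰, Real.exp (-(cw k s m U.card (bd Γ (U : Set W)))) ≤
      av (fun ω : Fin (s + 1) → Sym2 W → Fin k =>
        Set.indicator {ω | ∀ v ∈ U, {w | (prc Γ s ω).Reachable v w} = (U : Set W)}
          (fun _ => (1 : ℝ)) ω) := fun U hU =>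
    hclu W Γ k s m hk hm hreg hsp U (h𝒰 U hU).2
  refine (Finset.sum_le_sum h1).trans ?_
  unfold av
  rw [← Finset.sum_div, Finset.sum_comm]
  have h2 : ∀ ω : Fin (s + 1) → Sym2 W → Fin k, ∑ U ∈ 𝒰,
      Set.indicator {ω | ∀ v ∈ U, {w | (prc Γ s ω).Reachable v w} = (U : Set W)}
          (fun _ => (1 : ℝ)) ω ≤ 1 := by
    intro ω
    by_cases hex : ∃ U ∈ 𝒰, ω ∈ {ω : Fin (s + 1) → Sym2 W → Fin k |
        ∀ v ∈ U, {w | (prc Γ s ω).Reachable v w} = (U : Set W)}
    · obtain ⟨U0, hU0, hω0⟩ := hex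
      rw [Finset.sum_eq_single U0]
      · exact Set.indicator_le_self' (fun _ _ => zero_le_one) _ |>.trans le_rfl
      · intro U hU hne
        apply Set.indicator_of_notMem
        intro hω
        apply hne
        have e0 := hω0 v (h𝒰 U0 hU0).1
        have e1 := hω v (h𝒰 U hU).1
        rw [e0] at e1
        exact_mod_cast e1.symm
      · intro h; exact absurd hU0 h
    · push Not at hex
      rw [Finset.sum_eq_zero]
      · norm_num
      · intro U hU
        exact Set.indicator_of_notMem (hex U hU) _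
  have h3 : ∑ ω : Fin (s + 1) → Sym2 W → Fin k, ∑ U ∈ 𝒰,
      Set.indicator {ω | ∀ v ∈ U, {w | (prc Γ s ω).Reachable v w} = (U : Set W)}
          (fun _ => (1 : ℝ)) ω ≤ (Fintype.card (Fin (s + 1) → Sym2 W → Fin k) : ℝ) := by
    refine (Finset.sum_le_sum fun ω _ => h2 ω).trans ?_
    rw [Finset.sum_const, nsmul_eq_mul, mul_one, Finset.card_univ]
  exact div_le_one_of_le₀ h3 (Nat.cast_nonneg _)

end Pool.Agent.LLG.H93
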