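import Pool.Agent.Helper22_LLG.Stmt
import Pool.Agent.Helper81_LPY.Md

/-!
LLG: module HMT
-/

set_option autoImplicit false

namespace Pool.Agent.LLG.H93

open Pool.Agent.LLG

theorem hallE {V : Type} [Fintype V] (E : V → V → Prop) (Z : Set V)
    (h : ∀ A : Set V, (∀ x ∈ A, x ∉ Z) → A.ncard ≤ {y | ∃ x ∈ A, E x y}.ncard) :
    ∃ f : {x // x ∉ Z} → V, Function.Injective f ∧ ∀ x : {x // x ∉ Z}, E x (f x) := by
  classical
  refine (Fintype.all_card_le_filter_rel_iff_exists_injective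
    (fun (a : {x // x ∉ Z}) (b : V) => E a b)).1 ?_
  intro A
  have h1 := h (Subtype.val '' (A : Set {x // x ∉ Z})) (by
    rintro x ⟨a, -, rfl⟩; exact a.2)
  rw [Set.ncard_image_of_injective _ Subtype.val_injective, Set.ncard_coe_finset] at h1
  refine h1.trans (le_of_eq ?_)
  rw [← Set.ncard_coe_finset]
  congr 1
  ext y
  simp only [Set.mem_ofPred_eq, Set.mem_image, Finset.mem_coe, Finset.coe_filter,
    Finset.mem_univ, true_and]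
  constructor
  · rintro ⟨x, ⟨a, ha, rfl⟩, hx⟩; exact ⟨a, ha, hx⟩
  · rintro ⟨a, ha, hx⟩; exact ⟨a, ⟨a, ha, rfl⟩, hx⟩

theorem hmt : HmtStmt := by
  intro V _ E Z1 Z2 h1 h2
  obtain ⟨f, hf, hfE⟩ := hallE E Z1 h1
  obtain ⟨g, hg, hgE⟩ := hallE (fun x y => E y x) Z2 h2
  obtain ⟨M, hM, hPI, hd, hr⟩ := Pool.Agent.LPY.H81.md V V
    {p | ∃ h : p.1 ∉ Z1, f ⟨p.1, h⟩ = p.2} {p | ∃ h : p.2 ∉ Z2, g ⟨p.2, h⟩ = p.1} Z1ᶜ Z2ᶜ
    ⟨by
      rintro x y y' ⟨a, ha⟩ ⟨b, hb⟩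
      exact ha.symm.trans hb,
    by
      rintro x x' y ⟨a, ha⟩ ⟨b, hb⟩
      have := hf (ha.trans hb.symm)
      exact congrArg Subtype.val this⟩
    ⟨by
      rintro x y y' ⟨a, ha⟩ ⟨b, hb⟩
      have := hg (ha.trans hb.symm)
      exact congrArg Subtype.val this,
    by
      rintro x x' y ⟨a, ha⟩ ⟨b, hb⟩
      exact ha.symm.trans hb⟩
    (fun x hx => ⟨f ⟨x, hx⟩, hx, rfl⟩) (fun y hy => ⟨g ⟨y, hy⟩, hy, rfl⟩)
  refine ⟨fun x y => (x, y) ∈ M, ?_, fun x y y' => hPI.1 x y y', fun x x' y => hPI.2 x x' y,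
    fun x hx => hd hx, fun y hy => hr hy⟩
  intro x y hxy
  rcases hM hxy with ⟨a, ha⟩ | ⟨a, ha⟩
  · have := hfE ⟨x, a⟩
    simp only at ha
    rwa [ha] at this
  · have := hgE ⟨y, a⟩
    simp only at ha
    rwa [ha] at this

end Pool.Agent.LLG.H93
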